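import Pool.Agent.Helper24.QD.Glob

set_option autoImplicit false

/-!
The arithmetic statements over a general field with global data.
-/

namespace QG

open QD

/-! ### Matrices -/

section mat
variable {Kf : Type} [Field Kf] {ι : Type} [Fintype ι] [DecidableEq ι]

/-- Block unipotent matrices over `ℝ`: `g x y = δ x y` whenever `b y ≤ b x`. -/
def Vb (b : ι → ℕ) : Subgroup (GL ι Kf) where
  carrier := {g | ∀ x y, b y ≤ b x → g.1 x y = (1 : Matrix ι ι Kf) x y}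
  one_mem' := fun x y _ => rfl
  mul_mem' := by
    intro g h hg hh x y hxy
    show (g.1 * h.1) x y = _
    rw [Matrix.mul_apply]
    have : ∀ z, g.1 x z * h.1 z y = (1 : Matrix ι ι Kf) x z * (1 : Matrix ι ι Kf) z y := by
      intro z
      rcases le_or_gt (b z) (b x) with h1 | h1
      · rw [hg x z h1]
        rcases eq_or_ne x z with rfl | h2
        · rw [hh x y hxy]
        · rw [Matrix.one_apply_ne h2]; simp
      · rw [hh z y (hxy.trans h1.le)]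
        have h2 : z ≠ y := by rintro rfl; omega
        have h3 : x ≠ z := by rintro rfl; omega
        rw [Matrix.one_apply_ne h2, Matrix.one_apply_ne h3]; simp
    rw [Finset.sum_congr rfl (fun z _ => this z), ← Matrix.mul_apply, one_mul]
  inv_mem' := by
    intro g hg x y hxy
    have hbt : Matrix.BlockTriangular g.1 b := fun i j hij => by
      rw [hg i j hij.le, Matrix.one_apply_ne]; rintro rfl; omega
    have : Invertible g.1 := g.invertible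
    have hbt' : Matrix.BlockTriangular (g.1)⁻¹ b :=
      Matrix.blockTriangular_inv_of_blockTriangular hbt
    have hinv : (g⁻¹).1 = (g.1)⁻¹ := by simp
    have hmul : (g⁻¹).1 * g.1 = 1 := by
      rw [← Units.val_mul, inv_mul_cancel]; rfl
    have h1 := congrFun (congrFun hmul x) y
    rw [Matrix.mul_apply] at h1
    have : ∀ z, (g⁻¹).1 x z * g.1 z y = (g⁻¹).1 x z * (1 : Matrix ι ι Kf) z y := by
      intro z
      rcases le_or_gt (b x) (b z) with h2 | h2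
      · rw [hg z y (hxy.trans h2)]
      · rw [hinv, hbt' h2]; simp
    rw [Finset.sum_congr rfl (fun z _ => this z), ← Matrix.mul_apply, mul_one] at h1
    exact h1

/-- `g` and `g⁻¹` have entries in the subring `B`. -/
def GLB (B : Subring Kf) : Subgroup (GL ι Kf) where
  carrier := {g | (∀ x y, g.1 x y ∈ B) ∧ ∀ x y, (g⁻¹).1 x y ∈ B}
  one_mem' := by
    constructor <;> intro x y
    · show (1 : Matrix ι ι Kf) x y ∈ B
      rw [Matrix.one_apply]; split_ifs; exacts [B.one_mem, B.zero_mem]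
    · rw [inv_one]
      show (1 : Matrix ι ι Kf) x y ∈ B
      rw [Matrix.one_apply]; split_ifs; exacts [B.one_mem, B.zero_mem]
  mul_mem' := by
    intro g h hg hh
    constructor <;> intro x y
    · show (g.1 * h.1) x y ∈ B
      rw [Matrix.mul_apply]
      exact B.sum_mem fun z _ => B.mul_mem (hg.1 x z) (hh.1 z y)
    · rw [mul_inv_rev]
      show ((h⁻¹).1 * (g⁻¹).1) x y ∈ B
      rw [Matrix.mul_apply]
      exact B.sum_mem fun z _ => B.mul_mem (hh.2 x z) (hg.2 z y)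
  inv_mem' := by
    intro g hg
    exact ⟨hg.2, by rw [inv_inv]; exact hg.1⟩

end mat

/-! ### Block unipotent matrices -/

def ST_UNIa : Prop := ∀ (Kf : Type) [Field Kf] (ι : Type) [Fintype ι] [DecidableEq ι] (b : ι → ℕ), ∃ R : ℕ, 1 ≤ R ∧
  ∀ (a : AbsoluteValue Kf ℝ) (v : GL ι Kf), v ∈ Vb b → (∀ x y, a (v.1 x y) ≤ 1) →
    ∀ x y, a ((v⁻¹).1 x y) ≤ R

def ST_UNIb : Prop := ∀ (Kf : Type) [Field Kf] (ι : Type) [Fintype ι] [DecidableEq ι] (b : ι → ℕ) (B : Subring Kf)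
  (N : Matrix ι ι Kf), (∀ x y, b y ≤ b x → N x y = 0) → (∀ x y, N x y ∈ B) →
    ∃ g : GL ι Kf, g.1 = 1 + N ∧ g ∈ Vb b ∧ g ∈ GLB B

def ST_COV : Prop := ∀ (Kf : Type) [Field Kf] (Gd : Glob Kf) (ι : Type) [Fintype ι] [DecidableEq ι] (b : ι → ℕ)
  (v : Gd.I → GL ι Kf), (∀ i, v i ∈ Vb b) → ∃ γ : GL ι Kf, γ ∈ Vb b ∧ γ ∈ GLB (Gd.B) ∧
    ∀ i x y, Gd.av i ((γ⁻¹ * v i).1 x y) ≤ 1

/-! ### The arithmetic instance -/

/-- The diagonal matrix with entries `α ^ (- b x)`. -/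
def dg {Kf : Type} [Field Kf] {ι : Type} [Fintype ι] [DecidableEq ι] (b : ι → ℕ) : Kfˣ →* GL ι Kf where
  toFun α := ⟨Matrix.diagonal fun x => ((α⁻¹ ^ b x : Kfˣ) : Kf),
    Matrix.diagonal fun x => ((α ^ b x : Kfˣ) : Kf),
    by rw [Matrix.diagonal_mul_diagonal, ← Matrix.diagonal_one]; congr 1; funext x
       rw [← Units.val_mul, ← mul_pow]; simp,
    by rw [Matrix.diagonal_mul_diagonal, ← Matrix.diagonal_one]; congr 1; funext x
       rw [← Units.val_mul, ← mul_pow]; simp⟩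
  map_one' := by
    apply Units.ext
    show Matrix.diagonal _ = (1 : Matrix ι ι Kf)
    rw [← Matrix.diagonal_one]; congr 1; funext x; simp
  map_mul' := by
    intro α β
    apply Units.ext
    show Matrix.diagonal _ = Matrix.diagonal _ * Matrix.diagonal _
    rw [Matrix.diagonal_mul_diagonal]; congr 1; funext x
    rw [← Units.val_mul, ← mul_pow, mul_inv]

/-- The data: a group `Q` acting by block diagonal matrices over `ℤ[1/m]`, with central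
elements `a i j` acting by `dg b (α i j)`, where `α i j` is large at the places `i`, `j`. -/
structure Inst {Kf : Type} [Field Kf] (Gd : Glob Kf) (ι : Type) [Fintype ι] [DecidableEq ι]
    (b : ι → ℕ) (Q : Type) [Group Q] where
  ρ : Q →* GL ι Kf
  T : Set Q
  a : Gd.I → Gd.I → Q
  α : Gd.I → Gd.I → Kfˣ
  hTfin : T.Finite
  hTinv : ∀ t ∈ T, t⁻¹ ∈ T
  hTgen : Gen T Set.univ
  haT : ∀ i j, a i j ∈ T
  hac : ∀ i j t, a i j * t = t * a i j
  hρ : ∀ t x y, b x ≠ b y → (ρ t).1 x y = 0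
  hρB : ∀ t, ρ t ∈ GLB (Gd.B)
  hρa : ∀ i j, ρ (a i j) = dg b (α i j)
  hα : ∀ i j, 1 < Gd.av i (α i j : Kf) ∧ 1 < Gd.av j (α i j : Kf)

section inst
variable {Kf : Type} [Field Kf] {Gd : Glob Kf} {ι : Type} [Fintype ι] [DecidableEq ι] {b : ι → ℕ} {Q : Type} [Group Q]

/-- Block diagonal matrices normalise `Vb`. -/
theorem conj_mem_Vb (g v : GL ι Kf) (hg : ∀ x y, b x ≠ b y → g.1 x y = 0)
    (hg' : ∀ x y, b x ≠ b y → (g⁻¹).1 x y = 0) (hv : v ∈ Vb b) : g * v * g⁻¹ ∈ Vb b := by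
  intro x y hxy
  have h1 : ∀ w, b w ≤ b x → (g.1 * v.1) x w = g.1 x w := by
    intro w hw
    have : ∀ z, g.1 x z * v.1 z w = g.1 x z * (1 : Matrix ι ι Kf) z w := by
      intro z
      by_cases h : b x = b z
      · rw [hv z w (by omega)]
      · rw [hg x z h]; simp
    rw [Matrix.mul_apply, Finset.sum_congr rfl (fun z _ => this z), ← Matrix.mul_apply, mul_one]
  show (g.1 * v.1 * (g⁻¹).1) x y = _
  have h2 : ∀ w, (g.1 * v.1) x w * (g⁻¹).1 w y = g.1 x w * (g⁻¹).1 w y := by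
    intro w
    by_cases h : b w = b y
    · rw [h1 w (by omega)]
    · rw [hg' w y h]; simp
  rw [Matrix.mul_apply, Finset.sum_congr rfl (fun z _ => h2 z), ← Matrix.mul_apply,
    ← Units.val_mul, mul_inv_cancel]
  rfl

theorem Inst.conj (D : Inst Gd ι b Q) (t : Q) (v : GL ι Kf) (hv : v ∈ Vb b) :
    D.ρ t * v * (D.ρ t)⁻¹ ∈ Vb b :=
  conj_mem_Vb _ v (D.hρ t) (by rw [← map_inv]; exact D.hρ t⁻¹) hv

/-- The letter of `t ∈ Q` in the ambient group `∏_i GL × Q`. -/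
def Inst.q (D : Inst Gd ι b Q) : Q →* (Gd.I → GL ι Kf) × Q where
  toFun t := (fun _ => D.ρ t, t)
  map_one' := by ext1 <;> simp; rfl
  map_mul' := by intro s t; ext1 <;> simp; rfl

/-- Block unipotent matrices at the place `i`. -/
def Inst.V (_D : Inst Gd ι b Q) (i : Gd.I) : Subgroup ((Gd.I → GL ι Kf) × Q) where
  carrier := {x | x.2 = 1 ∧ x.1 i ∈ Vb b ∧ ∀ j, j ≠ i → x.1 j = 1}
  one_mem' := ⟨rfl, (Vb b).one_mem, fun _ _ => rfl⟩
  mul_mem' := by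
    intro x y hx hy
    refine ⟨by rw [Prod.snd_mul, hx.1, hy.1, one_mul], (Vb b).mul_mem hx.2.1 hy.2.1, ?_⟩
    intro j hj
    rw [Prod.fst_mul, Pi.mul_apply, hx.2.2 j hj, hy.2.2 j hj, one_mul]
  inv_mem' := by
    intro x hx
    refine ⟨by rw [Prod.snd_inv, hx.1, inv_one], (Vb b).inv_mem hx.2.1, ?_⟩
    intro j hj
    rw [Prod.fst_inv, Pi.inv_apply, hx.2.2 j hj, inv_one]

/-- The ball of radius `R` in `V i`. -/
def Inst.E (D : Inst Gd ι b Q) (R : ℕ) (i : Gd.I) : Set ((Gd.I → GL ι Kf) × Q) :=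
  {x | x ∈ D.V i ∧ ∀ s t, Gd.av i ((x.1 i).1 s t) ≤ R ∧ Gd.av i (((x.1 i)⁻¹).1 s t) ≤ R}

/-- The compact set. -/
def Inst.O (_D : Inst Gd ι b Q) : Set ((Gd.I → GL ι Kf) × Q) :=
  {x | x.2 = 1 ∧ ∀ i, x.1 i ∈ Vb b ∧ ∀ s t, Gd.av i ((x.1 i).1 s t) ≤ 1}

/-- The letters of the ambient group. -/
def Inst.S (D : Inst Gd ι b Q) (R : ℕ) : Set ((Gd.I → GL ι Kf) × Q) :=
  (D.q '' D.T) ∪ ⋃ i, D.E R i

/-- The arithmetic subgroup: constant families `g ∈ GL(ℤ[1/m])` with `g ρ(t)⁻¹` block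
unipotent. -/
def Inst.Gam (D : Inst Gd ι b Q) : Subgroup ((Gd.I → GL ι Kf) × Q) where
  carrier := {x | (∀ i, x.1 i = x.1 Gd.i0) ∧ x.1 Gd.i0 ∈ GLB (Gd.B) ∧
    x.1 Gd.i0 * (D.ρ x.2)⁻¹ ∈ Vb b}
  one_mem' := by
    refine ⟨fun _ => rfl, (GLB _).one_mem, ?_⟩
    show (1 : GL ι Kf) * (D.ρ 1)⁻¹ ∈ Vb b
    rw [map_one, inv_one, one_mul]
    exact (Vb b).one_mem
  mul_mem' := by
    intro x y hx hy
    refine ⟨fun i => ?_, (GLB _).mul_mem hx.2.1 hy.2.1, ?_⟩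
    · rw [Prod.fst_mul, Pi.mul_apply, Pi.mul_apply, hx.1 i, hy.1 i]
    · have h := (Vb b).mul_mem hx.2.2 (D.conj x.2 _ hy.2.2)
      convert h using 1
      show x.1 Gd.i0 * y.1 Gd.i0 * (D.ρ (x.2 * y.2))⁻¹ = _
      rw [map_mul]; group
  inv_mem' := by
    intro x hx
    refine ⟨fun i => ?_, (GLB _).inv_mem hx.2.1, ?_⟩
    · rw [Prod.fst_inv, Pi.inv_apply, Pi.inv_apply, hx.1 i]
    · have h := D.conj x.2⁻¹ _ ((Vb b).inv_mem hx.2.2)
      convert h using 1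
      show (x.1 Gd.i0)⁻¹ * (D.ρ (x.2⁻¹))⁻¹ = _
      rw [map_inv]; group

end inst

/-! ### INST rows -/

/-- SET: the instance is a `Setup`. -/
def ST_SET : Prop := ∀ (Kf : Type) [Field Kf] (Gd : Glob Kf) (ι : Type) [Fintype ι] [DecidableEq ι] (b : ι → ℕ) (Q : Type)
  [Group Q] (D : Inst Gd ι b Q) (R : ℕ), 1 ≤ R →
  ∃ U : Setup ((Gd.I → GL ι Kf) × Q) (Gd.I), U.V = D.V ∧ U.E = D.E R ∧ U.T = D.q '' D.T ∧
    U.A = fun i j => D.q (D.a i j)

/-- UNQ: uniqueness of the decomposition. -/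
def ST_UNQ : Prop := ∀ (Kf : Type) [Field Kf] (Gd : Glob Kf) (ι : Type) [Fintype ι] [DecidableEq ι] (b : ι → ℕ) (Q : Type)
  [Group Q] (D : Inst Gd ι b Q) (v : Gd.I → (Gd.I → GL ι Kf) × Q)
  (t : List ((Gd.I → GL ι Kf) × Q)), (∀ i, v i ∈ D.V i) → (∀ g ∈ t, g ∈ D.q '' D.T) →
  ((Finset.univ : Finset (Gd.I)).toList.map v).prod * t.prod = 1 → ∀ i, v i = 1

/-- GEN: generation. -/
def ST_GEN : Prop := ∀ (Kf : Type) [Field Kf] (Gd : Glob Kf) (ι : Type) [Fintype ι] [DecidableEq ι] (b : ι → ℕ) (Q : Type)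
  [Group Q] (D : Inst Gd ι b Q) (R : ℕ), 1 ≤ R →
  Gen (D.S R) {x | ∀ i, x.1 i * (D.ρ x.2)⁻¹ ∈ Vb b}

/-- COVR: every product of letters is `γ o`. -/
def ST_COVR : Prop := ∀ (Kf : Type) [Field Kf] (Gd : Glob Kf) (ι : Type) [Fintype ι] [DecidableEq ι] (b : ι → ℕ) (Q : Type)
  [Group Q] (D : Inst Gd ι b Q) (R : ℕ) (w : List ((Gd.I → GL ι Kf) × Q)),
  (∀ g ∈ w, g ∈ D.S R) → ∃ γ ∈ D.Gam, ∃ o ∈ D.O, w.prod = γ * o

/-- OBD: elements of `O` are short words. -/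
def ST_OBD : Prop := ∀ (Kf : Type) [Field Kf] (Gd : Glob Kf) (ι : Type) [Fintype ι] [DecidableEq ι] (b : ι → ℕ),
  ∃ R : ℕ, 1 ≤ R ∧ ∀ (Q : Type) [Group Q] (D : Inst Gd ι b Q), ∀ o ∈ D.O,
    ∃ w : List ((Gd.I → GL ι Kf) × Q), w.length ≤ Fintype.card (Gd.I) ∧
      (∀ g ∈ w, ∃ i, g ∈ D.E R i) ∧ w.prod = o

/-- FNS: finiteness of the generating set of `Γ`. -/
def ST_FNS : Prop := ∀ (Kf : Type) [Field Kf] (Gd : Glob Kf) (ι : Type) [Fintype ι] [DecidableEq ι] (b : ι → ℕ) (Q : Type)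
  [Group Q] (D : Inst Gd ι b Q) (R : ℕ), 1 ≤ R →
  {γ : D.Gam | ∃ o ∈ D.O, ∃ s ∈ D.S R, ∃ o' ∈ D.O,
    (γ : (Gd.I → GL ι Kf) × Q) = o * s * o'⁻¹}.Finite

/-- CORE: the arithmetic group `Γ`. -/
def ST_CORE : Prop := ∀ (Kf : Type) [Field Kf] (Gd : Glob Kf) (ι : Type) [Fintype ι] [DecidableEq ι] (b : ι → ℕ) (Q : Type)
  [Group Q] (D : Inst Gd ι b Q) (T₀ : Set Q), T₀ ⊆ D.T → Red D.T T₀ →
  ∃ S' : Set D.Gam, S'.Finite ∧ (∀ s ∈ S', s⁻¹ ∈ S') ∧ Gen S' Set.univ ∧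
    (∀ γ : D.Gam, (γ : (Gd.I → GL ι Kf) × Q) ∈ D.q '' T₀ → γ ∈ S') ∧
    Red S' {γ : D.Gam | (γ : (Gd.I → GL ι Kf) × Q) ∈ D.q '' T₀}

/-- ONE: the embedding theorem over `Kf`. -/
def ST_ONE : Prop := ∀ (Kf : Type) [Field Kf], IsGlob Kf → ∀ (ι : Type) [Fintype ι] [DecidableEq ι] (b : ι → ℕ) (H L : Type)
  [Group H] [Group L], Group.FG H → QuadDehn L →
  ∀ (f : H →* GL ι Kf) (lam : H →* L) (th : L →* GL ι Kf), Function.Injective f →
  (∀ h x y, b y < b x → (f h).1 x y = 0) → (∀ l x y, b x ≠ b y → (th l).1 x y = 0) →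
  (∀ h x y, b x = b y → (th (lam h)).1 x y = (f h).1 x y) → EmbQD H


end QG
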