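import Pool.Agent.Helper24.QG.Stmts

set_option autoImplicit false

namespace QG

open QD

theorem cov_one {Kf : Type} [Field Kf] (Gd : Glob Kf) {ι : Type} [Fintype ι] [DecidableEq ι] (i : Gd.I) (x y : ι) :
    Gd.av i ((1 : Matrix ι ι Kf) x y) ≤ 1 := by
  rw [Matrix.one_apply]
  split_ifs
  · rw [map_one]
  · rw [map_zero]; exact zero_le_one

theorem st_COV (hU : ST_UNIb) : ST_COV := by
  intro Kf _ Gd ι _ _ b v hv
  have claim : ∀ d : ℕ, ∃ γ : GL ι Kf, γ ∈ Vb b ∧ γ ∈ GLB (Gd.B) ∧
      ∀ i x y, b y ≤ b x + d → Gd.av i ((γ⁻¹ * v i).1 x y) ≤ 1 := by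
    intro d
    induction d with
    | zero =>
      refine ⟨1, (Vb b).one_mem, (GLB _).one_mem, fun i x y hxy => ?_⟩
      rw [inv_one, one_mul, hv i x y (by simpa using hxy)]
      exact cov_one Gd i x y
    | succ d ih =>
      obtain ⟨γ, hγ1, hγ2, hγ3⟩ := ih
      have hw : ∀ i, γ⁻¹ * v i ∈ Vb b := fun i => (Vb b).mul_mem ((Vb b).inv_mem hγ1) (hv i)
      choose β hβ1 hβ2 using fun x y : ι => Gd.hA (fun i => (γ⁻¹ * v i).1 x y)
      obtain ⟨η, hη, hη1, hη2⟩ := hU Kf ι b Gd.B
        (Matrix.of fun x y => if b y = b x + (d + 1) then β x y else 0)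
        (fun x y hxy => by
          rw [Matrix.of_apply, if_neg (by omega)])
        (fun x y => by
          rw [Matrix.of_apply]
          split_ifs
          · exact hβ1 x y
          · exact (Gd.B).zero_mem)
      refine ⟨γ * η, (Vb b).mul_mem hγ1 hη1, (GLB _).mul_mem hγ2 hη2, fun i x y hxy => ?_⟩
      have e1 : (γ * η)⁻¹ * v i = η⁻¹ * (γ⁻¹ * v i) := by group
      rw [e1]
      have hu : η⁻¹ * (γ⁻¹ * v i) ∈ Vb b := (Vb b).mul_mem ((Vb b).inv_mem hη1) (hw i)
      set u := η⁻¹ * (γ⁻¹ * v i) with hudef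
      have e2 : (γ⁻¹ * v i).1 = u.1 + (Matrix.of fun x y => if b y = b x + (d + 1) then β x y else 0) * u.1 := by
        have : γ⁻¹ * v i = η * u := by rw [hudef]; group
        rw [this, Units.val_mul, hη, add_mul, one_mul]
      have e3 : ∀ z, (Matrix.of fun x y => if b y = b x + (d + 1) then β x y else 0) x z * u.1 z y =
          (Matrix.of fun x y => if b y = b x + (d + 1) then β x y else 0) x z * (1 : Matrix ι ι Kf) z y := by
        intro z
        by_cases hz : b z = b x + (d + 1)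
        · rw [hu z y (by omega)]
        · rw [Matrix.of_apply, if_neg hz, zero_mul, zero_mul]
      have e4 : (γ⁻¹ * v i).1 x y = u.1 x y + (if b y = b x + (d + 1) then β x y else 0) := by
        rw [e2, Matrix.add_apply, Matrix.mul_apply, Finset.sum_congr rfl (fun z _ => e3 z),
          ← Matrix.mul_apply, mul_one, Matrix.of_apply]
      by_cases hy : b y = b x + (d + 1)
      · rw [if_pos hy] at e4
        have e5 : u.1 x y = (γ⁻¹ * v i).1 x y - β x y := by rw [e4]; ring
        rw [e5]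
        exact hβ2 x y i
      · rw [if_neg hy, add_zero] at e4
        rw [← e4]
        exact hγ3 i x y (by omega)
  obtain ⟨γ, h1, h2, h3⟩ := claim (Finset.univ.sup b)
  refine ⟨γ, h1, h2, fun i x y => h3 i x y ?_⟩
  exact (Finset.le_sup (Finset.mem_univ y)).trans (Nat.le_add_left _ _)

end QG
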