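import Pool.Agent.Helper24.QG.ONE
import Pool.Agent.Helper24.QD.FIN
import Pool.Agent.Helper24.QD.Stmts2

set_option autoImplicit false

/-! Final assembly over finite extensions of a field with global data. -/

namespace QG

open QD

theorem liftForm (hONE : QG.ST_ONE) (hSC : ST_GSCAL) (k K : Type) [Field k] [Field K]
    [Algebra k K] [FiniteDimensional k K] (hk : IsGlob k) : LiftForm K := by
  intro n b H hH hb L _ hL lam th h1 h2
  obtain ⟨d, f, F, hf, hfF⟩ := hSC k K n
  refine hONE k hk (Fin n × Fin d) (fun p => b p.1) H L ((Group.fg_iff_subgroup_fg H).2 hH) hL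
    (f.comp H.subtype) lam (f.comp th) (hf.comp H.subtype_injective) ?_ ?_ ?_
  · rintro h ⟨x, s⟩ ⟨y, t⟩ hxy
    show (f h.1).1 (x, s) (y, t) = 0
    rw [hfF, hb h.1 h.2 x y hxy, map_zero]; rfl
  · rintro l ⟨x, s⟩ ⟨y, t⟩ hxy
    show (f (th l)).1 (x, s) (y, t) = 0
    rw [hfF, h1 l x y hxy, map_zero]; rfl
  · rintro h ⟨x, s⟩ ⟨y, t⟩ hxy
    show (f (th (lam h))).1 (x, s) (y, t) = (f h.1).1 (x, s) (y, t)
    rw [hfF, hfF, h2 h x y hxy]

theorem vabForm (hDIA : ST_DIA) (hVAB : ST_VAB) (K : Type) [Field K] (hL : LiftForm K) :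
    VabForm K := by
  intro n b H hH hb H₀ hfi hcomm
  obtain ⟨D, hD⟩ := hDIA K n b H hb
  have hFGH : Group.FG H := (Group.fg_iff_subgroup_fg H).2 hH
  have hrange : Group.FG D.range := Group.fg_range D
  have hfi' : (H₀.map D.rangeRestrict).FiniteIndex := by
    constructor
    rw [Subgroup.index_map]
    have h1 : D.rangeRestrict.range = ⊤ :=
      MonoidHom.range_eq_top.2 D.rangeRestrict_surjective
    rw [h1, Subgroup.index_top, mul_one]
    exact (Subgroup.finiteIndex_of_le (le_sup_left : H₀ ≤ H₀ ⊔ D.rangeRestrict.ker)).index_ne_zero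
  have hQD : QuadDehn D.range := by
    refine hVAB D.range hrange _ hfi' ?_
    rintro _ ⟨g, hg, rfl⟩ _ ⟨h, hh, rfl⟩
    rw [← map_mul, ← map_mul]
    apply Subtype.ext
    show D (g * h) = D (h * g)
    apply Units.ext
    ext x y
    rw [hD, hD]
    split_ifs with hxy
    · exact hcomm g hg h hh x y hxy
    · rfl
  refine hL n b H hH hb D.range hQD D.rangeRestrict D.range.subtype ?_ ?_
  · rintro ⟨_, h, rfl⟩ x y hxy
    show (D h).1 x y = 0
    rw [hD, if_neg hxy]
  · intro h x y hxy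
    show (D h).1 x y = h.1.1 x y
    rw [hD, if_pos hxy]

end QG
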