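import Pool.Agent.Helper24.QG.Stmts

set_option autoImplicit false

/-!
Row FNS: finiteness of the generating set of the arithmetic group.
-/

namespace QG

open QD

section
variable {Kf : Type} [Field Kf] {ι : Type} [Fintype ι] [DecidableEq ι]

omit [DecidableEq ι] in
/-- entries of a product of two matrices -/
theorem fns_mul (a : AbsoluteValue Kf ℝ) {A B : Matrix ι ι Kf} {r s : ℝ} (hr : 0 ≤ r)
    (hA : ∀ x y, a (A x y) ≤ r) (hB : ∀ x y, a (B x y) ≤ s) (x y : ι) :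
    a ((A * B) x y) ≤ Fintype.card ι * (r * s) := by
  rw [Matrix.mul_apply]
  refine (a.sum_le _ _).trans ?_
  calc ∑ z, a (A x z * B z y) ≤ ∑ _z : ι, r * s := by
        apply Finset.sum_le_sum
        intro z _
        rw [map_mul]
        exact mul_le_mul (hA x z) (hB z y) (a.nonneg _) hr
    _ = Fintype.card ι * (r * s) := by
        rw [Finset.sum_const, nsmul_eq_mul, Finset.card_univ]

omit [Fintype ι] in
theorem fns_one (a : AbsoluteValue Kf ℝ) (x y : ι) : a ((1 : Matrix ι ι Kf) x y) ≤ 1 := by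
  rw [Matrix.one_apply]
  split_ifs
  · rw [map_one]
  · rw [map_zero]
    exact zero_le_one

end

theorem st_FNS (hUNI : ST_UNIa) : ST_FNS := by
  intro Kf _ Gd ι _ _ b Q _ D R hR
  obtain ⟨R', hR', hinv⟩ := hUNI Kf ι b
  -- bound of the entries of `ρ t`
  obtain ⟨M, hM⟩ : ∃ M : ℕ, ∀ t ∈ D.T, ∀ (i : Gd.I) (x y : ι), Gd.av i ((D.ρ t).1 x y) ≤ M := by
    have hfin : (⋃ t ∈ D.T, ⋃ i : Gd.I, ⋃ x : ι, ⋃ y : ι,
        ({Gd.av i ((D.ρ t).1 x y)} : Set ℝ)).Finite :=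
      D.hTfin.biUnion fun t _ => Set.finite_iUnion fun i => Set.finite_iUnion fun x =>
        Set.finite_iUnion fun y => Set.finite_singleton _
    obtain ⟨B, hB⟩ := hfin.bddAbove
    refine ⟨⌈B⌉₊, fun t ht i x y => ?_⟩
    refine le_trans (hB ?_) (Nat.le_ceil B)
    simp only [Set.mem_iUnion, Set.mem_singleton_iff]
    exact ⟨t, ht, i, x, y, rfl⟩
  set Ms : ℕ := max M R with hMs
  set C : ℕ := Fintype.card ι * (Fintype.card ι * (1 * Ms) * R') with hC
  -- letters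
  have hS : ∀ s ∈ D.S R, (s.2 ∈ D.T ∨ s.2 = 1) ∧ ∀ (i : Gd.I) (x y : ι),
      Gd.av i ((s.1 i).1 x y) ≤ Ms := by
    intro s hs
    have e1 : (M : ℝ) ≤ Ms := by exact_mod_cast le_max_left M R
    have e2 : (R : ℝ) ≤ Ms := by exact_mod_cast le_max_right M R
    have e3 : (1 : ℝ) ≤ R := by exact_mod_cast hR
    rcases hs with ⟨t, ht, rfl⟩ | hs
    · exact ⟨Or.inl ht, fun i x y => (hM t ht i x y).trans e1⟩
    · obtain ⟨j, hj⟩ := Set.mem_iUnion.1 hs
      obtain ⟨⟨h1, h2, h3⟩, h4⟩ := hj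
      refine ⟨Or.inr h1, fun i x y => ?_⟩
      by_cases hij : i = j
      · rw [hij]
        exact (h4 x y).1.trans e2
      · rw [h3 i hij]
        exact (fns_one _ x y).trans (e3.trans e2)
  have hF := Gd.hB C
  set F : Set Kf := {β : Kf | β ∈ Gd.B ∧ ∀ i, Gd.av i β ≤ C} with hFdef
  let f : D.Gam → (ι → ι → Kf) × Q := fun γ => (fun x y => (γ.1.1 Gd.i0).1 x y, γ.1.2)
  have hf : Function.Injective f := by
    intro γ γ' h
    have h1 : (fun x y => (γ.1.1 Gd.i0).1 x y) = fun x y => (γ'.1.1 Gd.i0).1 x y :=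
      congrArg (fun p : (ι → ι → Kf) × Q => p.1) h
    have h2 : γ.1.2 = γ'.1.2 := congrArg (fun p : (ι → ι → Kf) × Q => p.2) h
    apply Subtype.ext
    refine Prod.ext ?_ h2
    have h3 : γ.1.1 Gd.i0 = γ'.1.1 Gd.i0 := by
      apply Units.ext
      ext x y
      exact congrFun (congrFun h1 x) y
    funext i
    rw [γ.2.1 i, γ'.2.1 i, h3]
  have hfin : (((Set.univ : Set ι).pi fun _ => (Set.univ : Set ι).pi fun _ => F) ×ˢ
      (D.T ∪ {1}) : Set ((ι → ι → Kf) × Q)).Finite :=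
    (Set.Finite.pi fun _ => Set.Finite.pi fun _ => hF).prod (D.hTfin.union (Set.finite_singleton 1))
  refine (hfin.preimage hf.injOn).subset ?_
  intro γ hγ
  obtain ⟨o, ho, s, hs, o', ho', e⟩ := hγ
  obtain ⟨hs1, hs2⟩ := hS s hs
  refine ⟨?_, ?_⟩
  · intro x _ y _
    show (γ.1.1 Gd.i0).1 x y ∈ F
    refine ⟨γ.2.2.1.1 x y, fun i => ?_⟩
    have e1 : γ.1.1 Gd.i0 = o.1 i * s.1 i * (o'.1 i)⁻¹ := by
      rw [← γ.2.1 i, e]
      rfl
    have e2 : (γ.1.1 Gd.i0).1 = (o.1 i).1 * (s.1 i).1 * ((o'.1 i)⁻¹).1 := by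
      rw [e1]
      rfl
    rw [e2]
    have a1 : ∀ x y, Gd.av i ((o.1 i).1 x y) ≤ 1 := (ho.2 i).2
    have a2 : ∀ x y, Gd.av i (((o'.1 i)⁻¹).1 x y) ≤ R' := hinv (Gd.av i) _ (ho'.2 i).1 (ho'.2 i).2
    have a3 := fns_mul (Gd.av i) zero_le_one a1 (hs2 i)
    have a4 := fns_mul (Gd.av i) (by positivity) a3 a2 x y
    refine a4.trans (le_of_eq ?_)
    rw [hC]
    push_cast
    ring
  · show γ.1.2 ∈ D.T ∪ {1}
    have e1 : γ.1.2 = s.2 := by
      rw [e]
      show o.2 * s.2 * (o'.2)⁻¹ = s.2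
      rw [ho.1, ho'.1]
      simp
    rw [e1]
    rcases hs1 with h | h
    · exact Or.inl h
    · exact Or.inr h

end QG
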