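import Pool.Agent.Helper24.QG.UNQ

set_option autoImplicit false

/-! Short words for the compact set. -/

namespace QG

open QD

theorem st_OBD (hU : ST_UNIa) : ST_OBD := by
  intro Kf _ Gd ι _ _ b
  obtain ⟨R, hR1, hR⟩ := hU Kf ι b
  refine ⟨R, hR1, ?_⟩
  intro Q _ D o ho
  let y : Gd.I → (Gd.I → GL ι Kf) × Q := fun i => (Pi.mulSingle i (o.1 i), 1)
  have hR1' : (1 : ℝ) ≤ (R : ℝ) := by exact_mod_cast hR1
  refine ⟨(Finset.univ : Finset (Gd.I)).toList.map y, ?_, ?_, ?_⟩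
  · rw [List.length_map, Finset.length_toList, Finset.card_univ]
  · intro g hg
    obtain ⟨i, _, rfl⟩ := List.mem_map.1 hg
    refine ⟨i, ⟨rfl, ?_, ?_⟩, ?_⟩
    · show (Pi.mulSingle i (o.1 i) : Gd.I → GL ι Kf) i ∈ Vb b
      rw [Pi.mulSingle_eq_same]
      exact (ho.2 i).1
    · intro j hj
      exact Pi.mulSingle_eq_of_ne hj _
    · intro s t
      show Gd.av i (((Pi.mulSingle i (o.1 i) : Gd.I → GL ι Kf) i).1 s t) ≤ R ∧
        Gd.av i ((((Pi.mulSingle i (o.1 i) : Gd.I → GL ι Kf) i)⁻¹).1 s t) ≤ R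
      rw [Pi.mulSingle_eq_same]
      exact ⟨((ho.2 i).2 s t).trans hR1', hR (Gd.av i) (o.1 i) (ho.2 i).1 (ho.2 i).2 s t⟩
  · apply Prod.ext
    · funext i
      rw [fst_prod_map, list_prod_single _ i _ _ (Finset.nodup_toList _), if_pos (by simp)]
      · exact Pi.mulSingle_eq_same i _
      · intro j hj
        exact Pi.mulSingle_eq_of_ne (Ne.symm hj) _
    · rw [snd_prod_map]
      rw [List.prod_eq_one, ho.1]
      intro x hx
      obtain ⟨j, _, rfl⟩ := List.mem_map.1 hx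
      rfl

end QG
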