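import Pool.Agent.Helper24.QG.Stmts

set_option autoImplicit false

/-!
The arithmetic instance satisfies the axioms of the combinatorial setting.
-/

namespace QG

open QD

namespace SETm

/-- A finite family of rationals is bounded. -/
theorem exists_bd {κ : Type} [Finite κ] (f : κ → ℝ) : ∃ M : ℝ, 1 ≤ M ∧ ∀ k, f k ≤ M := by
  obtain ⟨M, hM⟩ := (Set.finite_range f).bddAbove
  exact ⟨max 1 M, le_max_left _ _, fun k => (hM ⟨k, rfl⟩).trans (le_max_right _ _)⟩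

theorem exists_bdn {κ : Type} [Finite κ] (f : κ → ℕ) : ∃ M : ℕ, ∀ k, f k ≤ M := by
  obtain ⟨M, hM⟩ := (Set.finite_range f).bddAbove
  exact ⟨M, fun k => hM ⟨k, rfl⟩⟩

section mat
variable {Kf : Type} [Field Kf] {ι : Type} [Fintype ι] [DecidableEq ι]

/-- Entries of a conjugate by the diagonal matrix. -/
theorem dg_entry (b : ι → ℕ) (β : Kfˣ) (v : GL ι Kf) (s t : ι) :
    ((dg b β)⁻¹ * v * dg b β).1 s t = (β : Kf) ^ b s * v.1 s t * ((β⁻¹ : Kfˣ) : Kf) ^ b t := by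
  show (Matrix.diagonal (fun x => ((β ^ b x : Kfˣ) : Kf)) * v.1 *
    Matrix.diagonal (fun x => ((β⁻¹ ^ b x : Kfˣ) : Kf))) s t = _
  rw [Matrix.mul_diagonal, Matrix.diagonal_mul, Units.val_pow_eq_pow_val,
    Units.val_pow_eq_pow_val]

/-- Absolute values of entries after contraction. -/
theorem contr (b : ι → ℕ) (a : AbsoluteValue Kf ℝ) (β : Kfˣ) (v : GL ι Kf) (hv : v ∈ Vb b)
    (B : ℝ) (hB : 1 ≤ B) (hβ : 1 ≤ a (β : Kf))
    (h : ∀ s t, b s < b t → a (v.1 s t) ≤ B * a (β : Kf)) (s t : ι) :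
    a (((dg b β)⁻¹ * v * dg b β).1 s t) ≤ B := by
  have hβ0 : (0 : ℝ) < a (β : Kf) := lt_of_lt_of_le one_pos hβ
  have hinv : a ((β⁻¹ : Kfˣ) : Kf) = (a (β : Kf))⁻¹ := by
    rw [Units.val_inv_eq_inv_val, map_inv₀]
  rw [dg_entry, map_mul, map_mul, map_pow, map_pow, hinv]
  rcases lt_or_ge (b s) (b t) with hst | hst
  · have h1 := h s t hst
    have h2 : a (β : Kf) ^ b s * a (v.1 s t) * (a (β : Kf))⁻¹ ^ b t
        ≤ a (β : Kf) ^ b s * (B * a (β : Kf)) * (a (β : Kf))⁻¹ ^ b t := by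
      gcongr
    refine h2.trans ?_
    have h3 : a (β : Kf) ^ b s * (B * a (β : Kf)) = B * a (β : Kf) ^ (b s + 1) := by ring
    rw [h3, inv_pow, mul_assoc]
    have h4 : a (β : Kf) ^ (b s + 1) * (a (β : Kf) ^ b t)⁻¹ ≤ 1 := by
      rw [mul_inv_le_iff₀ (pow_pos hβ0 _), one_mul]
      exact pow_le_pow_right₀ hβ hst
    calc B * (a (β : Kf) ^ (b s + 1) * (a (β : Kf) ^ b t)⁻¹) ≤ B * 1 := by
          gcongr
      _ = B := mul_one B
  · rw [hv s t hst]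
    rcases eq_or_ne s t with rfl | hne
    · rw [Matrix.one_apply_eq, map_one, mul_one, ← mul_pow, mul_inv_cancel₀ hβ0.ne', one_pow]
      exact hB
    · rw [Matrix.one_apply_ne hne, map_zero]
      simp only [mul_zero, zero_mul]
      linarith

omit [DecidableEq ι] in
/-- Absolute value of an entry of a product. -/
theorem mul_entry_le (a : AbsoluteValue Kf ℝ) (u v : Matrix ι ι Kf) (B C : ℝ) (hB : 0 ≤ B)
    (hu : ∀ s t, a (u s t) ≤ B) (hv : ∀ s t, a (v s t) ≤ C) (s t : ι) :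
    a ((u * v) s t) ≤ (Fintype.card ι : ℝ) * (B * C) := by
  rw [Matrix.mul_apply]
  calc a (∑ z, u s z * v z t) ≤ ∑ z : ι, a (u s z * v z t) := a.sum_le _ _
    _ ≤ ∑ _z : ι, B * C := by
        refine Finset.sum_le_sum fun z _ => ?_
        rw [map_mul]
        exact mul_le_mul (hu s z) (hv z t) (a.nonneg _) hB
    _ = (Fintype.card ι : ℝ) * (B * C) := by
        rw [Finset.sum_const, nsmul_eq_mul, Finset.card_univ]

end mat

section inst
variable {Kf : Type} [Field Kf] {Gd : Glob Kf} {ι : Type} [Fintype ι] [DecidableEq ι] {b : ι → ℕ} {Q : Type} [Group Q]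

theorem q_mem_normal (D : Inst Gd ι b Q) (t : Q) (i : Gd.I) (x : (Gd.I → GL ι Kf) × Q)
    (hx : x ∈ D.V i) : D.q t * x * (D.q t)⁻¹ ∈ D.V i := by
  refine ⟨?_, ?_, fun j hj => ?_⟩
  · show t * x.2 * t⁻¹ = 1
    rw [hx.1, mul_one, mul_inv_cancel]
  · show D.ρ t * x.1 i * (D.ρ t)⁻¹ ∈ Vb b
    exact D.conj t _ hx.2.1
  · show D.ρ t * x.1 j * (D.ρ t)⁻¹ = 1
    rw [hx.2.2 j hj, mul_one, mul_inv_cancel]

theorem conj_eq (D : Inst Gd ι b Q) (i j l : Gd.I) (n : ℕ) (x : (Gd.I → GL ι Kf) × Q) :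
    ((D.q (D.a i j))⁻¹ ^ n * x * D.q (D.a i j) ^ n).1 l
      = (dg b (D.α i j ^ n))⁻¹ * x.1 l * dg b (D.α i j ^ n) := by
  show (D.ρ (D.a i j))⁻¹ ^ n * x.1 l * D.ρ (D.a i j) ^ n = _
  rw [D.hρa, map_pow, inv_pow]

/-- Contraction of an element of `V l` with controlled entries into `E R l`. -/
theorem into_E (D : Inst Gd ι b Q) (R : ℕ) (hR : 1 ≤ R) (i j l : Gd.I) (hl : l = i ∨ l = j)
    (n : ℕ) (x : (Gd.I → GL ι Kf) × Q) (hx : x ∈ D.V l)
    (h1 : ∀ s t, Gd.av l ((x.1 l).1 s t) ≤ R * Gd.av l (D.α i j : Kf) ^ n)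
    (h2 : ∀ s t, Gd.av l (((x.1 l)⁻¹).1 s t) ≤ R * Gd.av l (D.α i j : Kf) ^ n) :
    (D.q (D.a i j))⁻¹ ^ n * x * D.q (D.a i j) ^ n ∈ D.E R l := by
  have hα : 1 < Gd.av l (D.α i j : Kf) := by
    rcases hl with rfl | rfl
    · exact (D.hα l j).1
    · exact (D.hα i l).2
  have hR' : (1 : ℝ) ≤ (R : ℝ) := by exact_mod_cast hR
  have hβ : Gd.av l ((D.α i j ^ n : Kfˣ) : Kf) = Gd.av l (D.α i j : Kf) ^ n := by
    rw [Units.val_pow_eq_pow_val, map_pow]
  have hβ1 : 1 ≤ Gd.av l ((D.α i j ^ n : Kfˣ) : Kf) := by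
    rw [hβ]; exact one_le_pow₀ hα.le
  have hV : (D.q (D.a i j))⁻¹ ^ n * x * D.q (D.a i j) ^ n ∈ D.V l := by
    have h := q_mem_normal D ((D.a i j)⁻¹ ^ n) l x hx
    have e : D.q ((D.a i j)⁻¹ ^ n) * x * (D.q ((D.a i j)⁻¹ ^ n))⁻¹
        = (D.q (D.a i j))⁻¹ ^ n * x * D.q (D.a i j) ^ n := by
      rw [map_pow, map_inv, inv_pow, inv_inv]
    rw [e] at h
    exact h
  refine ⟨hV, fun s t => ⟨?_, ?_⟩⟩
  · rw [conj_eq]
    exact contr b (Gd.av l) _ _ hx.2.1 _ hR' hβ1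
      (fun s t _ => by rw [hβ]; exact h1 s t) s t
  · have e : (((D.q (D.a i j))⁻¹ ^ n * x * D.q (D.a i j) ^ n).1 l)⁻¹
        = (dg b (D.α i j ^ n))⁻¹ * (x.1 l)⁻¹ * dg b (D.α i j ^ n) := by
      rw [conj_eq]; group
    rw [e]
    exact contr b (Gd.av l) _ _ ((Vb b).inv_mem hx.2.1) _ hR' hβ1
      (fun s t _ => by rw [hβ]; exact h2 s t) s t

end inst

end SETm

open SETm in
theorem st_SET : ST_SET := by
  intro Kf _ Gd ι _ _ b Q _ D R hR
  have hR' : (1 : ℝ) ≤ (R : ℝ) := by exact_mod_cast hR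
  have hR0 : (0 : ℝ) ≤ (R : ℝ) := by linarith
  have : Finite D.T := D.hTfin.to_subtype
  obtain ⟨M, hM1, hM⟩ := exists_bd (κ := D.T × Gd.I × ι × ι)
    (fun k => Gd.av k.2.1 ((D.ρ k.1.1).1 k.2.2.1 k.2.2.2))
  have hM0 : (0 : ℝ) ≤ M := by linarith
  have hMt : ∀ t ∈ D.T, ∀ l s s', Gd.av l ((D.ρ t).1 s s') ≤ M :=
    fun t ht l s s' => hM (⟨t, ht⟩, l, s, s')
  have hMi : ∀ t ∈ D.T, ∀ l s s', Gd.av l (((D.ρ t)⁻¹).1 s s') ≤ M := by
    intro t ht l s s'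
    rw [← map_inv]
    exact hM (⟨t⁻¹, D.hTinv t ht⟩, l, s, s')
  -- the number to be beaten
  set N : ℝ := (Fintype.card ι : ℝ) * R + (Fintype.card ι : ℝ) ^ 2 * (M * M) with hN
  have hc0 : (0 : ℝ) ≤ (Fintype.card ι : ℝ) := Nat.cast_nonneg _
  have hex : ∀ k : Gd.I × Gd.I, ∃ n : ℕ, N ≤ Gd.av k.1 (D.α k.1 k.2 : Kf) ^ n ∧
      N ≤ Gd.av k.2 (D.α k.1 k.2 : Kf) ^ n := by
    intro k
    obtain ⟨n1, h1⟩ := pow_unbounded_of_one_lt N (D.hα k.1 k.2).1
    obtain ⟨n2, h2⟩ := pow_unbounded_of_one_lt N (D.hα k.1 k.2).2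
    refine ⟨max n1 n2, h1.le.trans ?_, h2.le.trans ?_⟩
    · exact pow_le_pow_right₀ (D.hα k.1 k.2).1.le (le_max_left _ _)
    · exact pow_le_pow_right₀ (D.hα k.1 k.2).2.le (le_max_right _ _)
  choose f hf using hex
  obtain ⟨k0, hk0⟩ := exists_bdn f
  have hk : ∀ i j l, (l = i ∨ l = j) → N ≤ Gd.av l (D.α i j : Kf) ^ k0 := by
    intro i j l hl
    rcases hl with rfl | rfl
    · exact (hf (l, j)).1.trans (pow_le_pow_right₀ (D.hα l j).1.le (hk0 (l, j)))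
    · exact (hf (i, l)).2.trans (pow_le_pow_right₀ (D.hα i l).2.le (hk0 (i, l)))
  have hα1 : ∀ i j l, (l = i ∨ l = j) → 1 < Gd.av l (D.α i j : Kf) := by
    intro i j l hl
    rcases hl with rfl | rfl
    · exact (D.hα l j).1
    · exact (D.hα i l).2
  refine ⟨{ V := D.V, E := D.E R, T := D.q '' D.T, A := fun i j => D.q (D.a i j), k0 := k0,
            hEV := fun i x hx => hx.1, hE1 := ?_, hTinv := ?_,
            hAT := fun i j => ⟨_, D.haT i j, rfl⟩, hAcomm := ?_, hVcomm := ?_, hTV := ?_,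
            hC1 := ?_, hC2 := ?_, hC3 := ?_ }, rfl, rfl, rfl, rfl⟩
  · intro i
    refine ⟨(D.V i).one_mem, fun s t => ?_⟩
    have h1 : Gd.av i ((1 : Matrix ι ι Kf) s t) ≤ R := by
      rcases eq_or_ne s t with rfl | hne
      · rw [Matrix.one_apply_eq, map_one]; exact hR'
      · rw [Matrix.one_apply_ne hne, map_zero]; exact hR0
    refine ⟨h1, ?_⟩
    show Gd.av i (((1 : GL ι Kf)⁻¹).1 s t) ≤ R
    rw [inv_one]; exact h1
  · rintro _ ⟨t, ht, rfl⟩
    exact ⟨t⁻¹, D.hTinv t ht, map_inv _ _⟩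
  · rintro i j _ ⟨t, _, rfl⟩
    rw [← map_mul, ← map_mul, D.hac]
  · intro i j hij x hx y hy
    have hx' := hx.1
    have hy' := hy.1
    refine Prod.ext ?_ ?_
    · funext k
      show x.1 k * y.1 k = y.1 k * x.1 k
      rcases eq_or_ne k i with rfl | hk'
      · rw [hy.2.2 k hij, mul_one, one_mul]
      · rw [hx.2.2 k hk', mul_one, one_mul]
    · show x.2 * y.2 = y.2 * x.2
      rw [hx', hy']
  · rintro _ ⟨t, _, rfl⟩ i x hx
    exact q_mem_normal D t i x hx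
  · intro i j l hl x hx
    have h := into_E D R hR i j l hl 1 x hx.1
      (fun s t => by
        rw [pow_one]
        calc Gd.av l ((x.1 l).1 s t) ≤ R := (hx.2 s t).1
          _ = R * 1 := (mul_one _).symm
          _ ≤ R * Gd.av l (D.α i j : Kf) := mul_le_mul_of_nonneg_left (hα1 i j l hl).le hR0)
      (fun s t => by
        rw [pow_one]
        calc Gd.av l (((x.1 l)⁻¹).1 s t) ≤ R := (hx.2 s t).2
          _ = R * 1 := (mul_one _).symm
          _ ≤ R * Gd.av l (D.α i j : Kf) := mul_le_mul_of_nonneg_left (hα1 i j l hl).le hR0)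
    rw [pow_one, pow_one] at h
    exact h
  · intro i j l hl x hx y hy
    have hkl := hk i j l hl
    have hcR : (Fintype.card ι : ℝ) * (R * R) ≤ R * Gd.av l (D.α i j : Kf) ^ k0 := by
      calc (Fintype.card ι : ℝ) * (R * R) = R * ((Fintype.card ι : ℝ) * R) := by ring
        _ ≤ R * N := by
            refine mul_le_mul_of_nonneg_left ?_ hR0
            rw [hN]
            have : 0 ≤ (Fintype.card ι : ℝ) ^ 2 * (M * M) := by positivity
            linarith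
        _ ≤ R * Gd.av l (D.α i j : Kf) ^ k0 := mul_le_mul_of_nonneg_left hkl hR0
    refine into_E D R hR i j l hl k0 (x * y) ((D.V l).mul_mem hx.1 hy.1) (fun s t => ?_)
      (fun s t => ?_)
    · refine (mul_entry_le (Gd.av l) (x.1 l).1 (y.1 l).1 R R hR0 (fun s t => (hx.2 s t).1)
        (fun s t => (hy.2 s t).1) s t).trans hcR
    · have e : (((x * y).1 l)⁻¹ : GL ι Kf) = (y.1 l)⁻¹ * (x.1 l)⁻¹ := by
        show (x.1 l * y.1 l)⁻¹ = _
        rw [mul_inv_rev]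
      rw [e]
      exact (mul_entry_le (Gd.av l) ((y.1 l)⁻¹).1 ((x.1 l)⁻¹).1 R R hR0
        (fun s t => (hy.2 s t).2) (fun s t => (hx.2 s t).2) s t).trans hcR
  · rintro i j l hl _ ⟨t, ht, rfl⟩ x hx
    have hkl := hk i j l hl
    have hcM : (Fintype.card ι : ℝ) * ((Fintype.card ι : ℝ) * (M * R) * M)
        ≤ R * Gd.av l (D.α i j : Kf) ^ k0 := by
      calc (Fintype.card ι : ℝ) * ((Fintype.card ι : ℝ) * (M * R) * M)
          = R * ((Fintype.card ι : ℝ) ^ 2 * (M * M)) := by ring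
        _ ≤ R * N := by
            refine mul_le_mul_of_nonneg_left ?_ hR0
            rw [hN]
            have : 0 ≤ (Fintype.card ι : ℝ) * (R : ℝ) := by positivity
            linarith
        _ ≤ R * Gd.av l (D.α i j : Kf) ^ k0 := mul_le_mul_of_nonneg_left hkl hR0
    refine into_E D R hR i j l hl k0 (D.q t * x * (D.q t)⁻¹)
      (q_mem_normal D t l x hx.1) (fun s s' => ?_) (fun s s' => ?_)
    · have e : ((D.q t * x * (D.q t)⁻¹).1 l).1
          = (D.ρ t).1 * (x.1 l).1 * ((D.ρ t)⁻¹).1 := rfl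
      rw [e]
      exact (mul_entry_le (Gd.av l) _ _ _ _ (by positivity)
        (mul_entry_le (Gd.av l) _ _ M R hM0 (hMt t ht l) (fun s t => (hx.2 s t).1))
        (hMi t ht l) s s').trans hcM
    · have e : (((D.q t * x * (D.q t)⁻¹).1 l)⁻¹).1
          = (D.ρ t).1 * ((x.1 l)⁻¹).1 * ((D.ρ t)⁻¹).1 := by
        show ((D.ρ t * x.1 l * (D.ρ t)⁻¹)⁻¹).1 = _
        rw [mul_inv_rev, inv_inv, mul_inv_rev, ← mul_assoc]
        rfl
      rw [e]
      exact (mul_entry_le (Gd.av l) _ _ _ _ (by positivity)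
        (mul_entry_le (Gd.av l) _ _ M R hM0 (hMt t ht l) (fun s t => (hx.2 s t).2))
        (hMi t ht l) s s').trans hcM

end QG
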