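import Pool.Agent.Helper24.QG.Stmts

set_option autoImplicit false

/-! Uniqueness of the decomposition. -/

namespace QG

open QD

theorem list_prod_single {M α : Type} [Monoid M] [DecidableEq α] (f : α → M) (i : α)
    (hf : ∀ j, j ≠ i → f j = 1) (l : List α) (hl : l.Nodup) :
    (l.map f).prod = if i ∈ l then f i else 1 := by
  induction l with
  | nil => simp
  | cons a l ih =>
    rw [List.nodup_cons] at hl
    rw [List.map_cons, List.prod_cons, ih hl.2]
    by_cases h : a = i
    · subst h
      rw [if_neg hl.1, mul_one, if_pos (by simp)]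
    · rw [hf a h, one_mul]
      by_cases h2 : i ∈ l
      · rw [if_pos h2, if_pos (by simp [h2])]
      · rw [if_neg h2, if_neg (by
          rw [List.mem_cons]
          rintro (h3 | h3)
          · exact h h3.symm
          · exact h2 h3)]

section unq

variable {Kf : Type} [Field Kf] {Gd : Glob Kf} {ι : Type} [Fintype ι] [DecidableEq ι] {b : ι → ℕ} {Q : Type} [Group Q]

theorem fst_prod_map (l : List (Gd.I)) (v : Gd.I → (Gd.I → GL ι Kf) × Q) (i : Gd.I) :
    (l.map v).prod.1 i = (l.map (fun j => (v j).1 i)).prod := by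
  induction l with
  | nil => rfl
  | cons a l ih =>
    rw [List.map_cons, List.prod_cons, List.map_cons, List.prod_cons, ← ih]
    rfl

theorem snd_prod_map (l : List (Gd.I)) (v : Gd.I → (Gd.I → GL ι Kf) × Q) :
    (l.map v).prod.2 = (l.map (fun j => (v j).2)).prod := by
  induction l with
  | nil => rfl
  | cons a l ih =>
    rw [List.map_cons, List.prod_cons, List.map_cons, List.prod_cons, ← ih]
    rfl

end unq

theorem st_UNQ : ST_UNQ := by
  intro Kf _ Gd ι _ _ b Q _ D v t hv ht h1
  have ht' : ∀ t : List ((Gd.I → GL ι Kf) × Q), (∀ g ∈ t, g ∈ D.q '' D.T) →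
      ∃ s : Q, t.prod = D.q s := by
    intro t
    induction t with
    | nil => intro _; exact ⟨1, by rw [List.prod_nil, map_one]⟩
    | cons a l ih =>
      intro h
      obtain ⟨s, hs⟩ := ih (fun g hg => h g (by simp [hg]))
      obtain ⟨r, _, hr⟩ := h a (by simp)
      exact ⟨r * s, by rw [List.prod_cons, hs, ← hr, map_mul]⟩
  obtain ⟨s, hs⟩ := ht' t ht
  have h2 : ((Finset.univ : Finset (Gd.I)).toList.map v).prod.2 = 1 := by
    rw [snd_prod_map]
    apply List.prod_eq_one
    intro x hx
    obtain ⟨j, _, rfl⟩ := List.mem_map.1 hx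
    exact (hv j).1
  have hs1 : s = 1 := by
    have h3 := congrArg Prod.snd h1
    rw [Prod.snd_mul, h2, one_mul, hs] at h3
    exact h3
  rw [hs, hs1, map_one, mul_one] at h1
  intro i
  have h4 : (v i).1 i = 1 := by
    have h5 := congrFun (congrArg Prod.fst h1) i
    rw [fst_prod_map, list_prod_single _ i (fun j hj => (hv j).2.2 i (Ne.symm hj)) _
      (Finset.nodup_toList _), if_pos (by simp)] at h5
    exact h5
  apply Prod.ext
  · funext j
    by_cases hj : j = i
    · subst hj; exact h4
    · exact (hv i).2.2 j hj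
  · exact (hv i).1

end QG
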